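import Pool.Agent.Q75.HM.Stm

set_option autoImplicit false

/-! # Project HM (helper75), job HM-CM (comparison of two nested domains), helper166 -/

namespace Pool.Agent.Q166.HM

open Complex Set Metric Filter Topology Pool.Agent.Q75.HM

open scoped Real ComplexConjugate

/-- Riemann map with its inverse -/
theorem rm_inv {Ω : Set ℂ} {p : ℂ} (hΩ : Dm Ω) (hp : p ∈ Ω) :
    ∃ φ g : ℂ → ℂ, RM Ω p φ ∧ ContinuousOn g (ball 0 1) ∧ MapsTo g (ball 0 1) Ω ∧
      (∀ z ∈ Ω, g (φ z) = z) ∧ ∀ z ∈ ball (0 : ℂ) 1, φ (g z) = z := by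
  obtain ⟨g, φ, h1, h2, h3, h4, h5, h6, h7, h8⟩ :=
    Pool.Agent.Helper405.Riemann.riemann_inv hΩ.1 hΩ.2.1 hΩ.2.2 hp
  refine ⟨φ, g, ⟨h5, ⟨h6, ?_, ?_⟩, ?_, ?_⟩, h1.continuousOn, h2.mapsTo, h7, h8⟩
  · intro z hz z' hz' h
    rw [← h7 z hz, ← h7 z' hz', h]
  · intro w hw
    exact ⟨g w, h2.mapsTo hw, h8 w hw⟩
  · intro z hz h0
    have hg : HasDerivAt g (deriv g (φ z)) (φ z) :=
      (h1.differentiableAt (isOpen_ball.mem_nhds (h6 hz))).hasDerivAt
    have hφ : HasDerivAt φ (deriv φ z) z :=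
      (h5.differentiableAt (hΩ.1.mem_nhds hz)).hasDerivAt
    have hc : HasDerivAt (g ∘ φ) (deriv g (φ z) * deriv φ z) z := hg.comp z hφ
    have hid : HasDerivAt (g ∘ φ) 1 z := by
      apply (hasDerivAt_id z).congr_of_eventuallyEq
      filter_upwards [hΩ.1.mem_nhds hz] with x hx
      exact h7 x hx
    have := hc.unique hid
    rw [h0, mul_zero] at this
    exact zero_ne_one this
  · rw [← h4]
    exact h8 0 (mem_ball_self one_pos)

theorem t_CM : S_QB → S_CM := by
  intro hQB W W' p z ε hW hW' hsub hp hz hε0 hε1 hout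
  have hp' : p ∈ W' := hsub hp
  have hz' : z ∈ W' := hsub hz
  obtain ⟨φ, -, hφ, -⟩ := rm_inv hW hp
  obtain ⟨ψ, g, hψ, hgc, hgm, hgl, hgr⟩ := rm_inv hW' hp'
  have hqφ : ∀ w ∈ W, qn W p w = ‖dslope φ p w‖ := fun w hw => (hQB W p w hW hp hw).1 φ hφ
  have hqψ : ∀ w ∈ W', qn W' p w = ‖dslope ψ p w‖ := fun w hw => (hQB W' p w hW' hp' hw).1 ψ hψ
  have hposψ : ∀ w ∈ W', 0 < ‖dslope ψ p w‖ := fun w hw => by
    rw [← hqψ w hw]; exact (hQB W' p w hW' hp' hw).2.1
  have hnφ : ∀ w, ‖φ w‖ = ‖w - p‖ * ‖dslope φ p w‖ := by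
    intro w
    have := sub_smul_dslope φ p w
    rw [hφ.2.2.2, sub_zero, smul_eq_mul] at this
    rw [← this, norm_mul]
  have hnψ : ∀ w, ‖ψ w‖ = ‖w - p‖ * ‖dslope ψ p w‖ := by
    intro w
    have := sub_smul_dslope ψ p w
    rw [hψ.2.2.2, sub_zero, smul_eq_mul] at this
    rw [← this, norm_mul]
  set h : ℂ → ℂ := fun w => dslope φ p w / dslope ψ p w with hh
  have hd : DifferentiableOn ℂ h W := by
    apply DifferentiableOn.div
    · exact (Complex.differentiableOn_dslope (hW.1.mem_nhds hp)).2 hφ.1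
    · exact ((Complex.differentiableOn_dslope (hW'.1.mem_nhds hp')).2 hψ.1).mono hsub
    · intro w hw
      exact norm_pos_iff.1 (hposψ w (hsub hw))
  -- the bound for every small η
  have hbd : ∀ η : ℝ, 0 < η → η < 1 - ε → ‖h z‖ ≤ 1 / (1 - ε - η) := by
    intro η hη hη1
    set ρ : ℝ := 1 - ε - η with hρ
    have hρ0 : 0 < ρ := by rw [hρ]; linarith
    have hρ1 : ρ < 1 := by rw [hρ]; linarith
    set K : Set ℂ := g '' closedBall 0 ρ with hK
    have hKc : IsCompact K := by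
      apply (isCompact_closedBall (0 : ℂ) ρ).image_of_continuousOn
      exact hgc.mono (closedBall_subset_ball hρ1)
    have hKmem : ∀ w ∈ W', ‖ψ w‖ ≤ ρ → w ∈ K := by
      intro w hw hle
      exact ⟨ψ w, by simpa using hle, hgl w hw⟩
    have hKW : K ⊆ W := by
      rintro w ⟨v, hv, rfl⟩
      have hvb : v ∈ ball (0 : ℂ) 1 := closedBall_subset_ball hρ1 hv
      have hw' : g v ∈ W' := hgm hvb
      by_contra hcon
      have h1 := hout (g v) hw' hcon
      rw [hqψ _ hw', ← hnψ, hgr v hvb] at h1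
      have h2 : ‖v‖ ≤ ρ := by simpa using hv
      linarith
    have hoff : ∀ w ∈ W, w ∉ K → ‖h w‖ ≤ 1 / ρ := by
      intro w hw hwK
      have h1 : ρ < ‖ψ w‖ := by
        by_contra hcon
        push Not at hcon
        exact hwK (hKmem w (hsub hw) hcon)
      have h2 : ‖φ w‖ < 1 := by simpa using hφ.2.1.mapsTo hw
      have h3 : 0 < ‖w - p‖ := by
        rcases (norm_nonneg (w - p)).eq_or_lt with h | h
        · exfalso
          rw [hnψ, ← h, zero_mul] at h1
          linarith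
        · exact h
      have h4 : ‖h w‖ = ‖φ w‖ / ‖ψ w‖ := by
        rw [hnφ, hnψ, mul_div_mul_left _ _ h3.ne']
        simp only [hh, norm_div]
      rw [h4]
      exact div_le_div₀ zero_le_one h2.le hρ0 h1.le
    by_cases hzK : z ∈ K
    · obtain ⟨O, hO1, hO2, hO3, hO4⟩ := exists_open_between_and_isCompact_closure hKc hW.1 hKW
      apply Complex.norm_le_of_forall_mem_frontier_norm_le (U := O)
        (hO4.isBounded.subset subset_closure)
      · exact (hd.mono hO3).diffContOnCl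
      · intro w hw
        apply hoff w (hO3 (frontier_subset_closure hw))
        intro hwK
        have : w ∈ O := hO2 hwK
        rw [hO1.frontier_eq] at hw
        exact hw.2 this
      · exact subset_closure (hO2 hzK)
    · exact hoff z hz hzK
  have hkey : ∀ η : ℝ, 0 < η → η < 1 - ε → (1 - ε - η) * qn W p z ≤ qn W' p z := by
    intro η hη hη1
    have h1 := hbd η hη hη1
    have h2 : 0 < 1 - ε - η := by linarith
    have h3 : ‖h z‖ = qn W p z / qn W' p z := by
      rw [hqφ z hz, hqψ z hz']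
      simp only [hh, norm_div]
    rw [h3, div_le_div_iff₀ (by rw [hqψ z hz']; exact hposψ z hz') h2] at h1
    linarith
  have hlim : Tendsto (fun η : ℝ => (1 - ε - η) * qn W p z) (𝓝[>] 0)
      (𝓝 ((1 - ε - 0) * qn W p z)) := by
    apply Tendsto.mul_const
    apply Tendsto.const_sub
    exact tendsto_nhdsWithin_of_tendsto_nhds tendsto_id
  rw [sub_zero] at hlim
  apply le_of_tendsto hlim
  have : ∀ᶠ η : ℝ in 𝓝[>] 0, η < 1 - ε := by
    apply mem_nhdsWithin_of_mem_nhds
    exact Iio_mem_nhds (by linarith)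
  filter_upwards [this, self_mem_nhdsWithin] with η h1 h2
  exact hkey η h2 h1

end Pool.Agent.Q166.HM
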