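import Pool.Agent.Q75.HM.Stm

set_option autoImplicit false

/-! # Project HM (helper75), job HM-CO (continuity in the height), helper166 -/

namespace Pool.Agent.Q166.HM

open Complex Set Metric Filter Topology Pool.Agent.Q75.HM

open scoped Real ComplexConjugate

theorem hs_open (s c : ℝ) : IsOpen (HS s c) :=
  (isOpen_lt Complex.continuous_re continuous_const).inter
    (isOpen_lt (continuous_abs.comp Complex.continuous_im) continuous_const)

theorem ld_un {G : Set ℂ} (hG : LD G) (t c : ℝ) : LD (G ∪ HS t c) := by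
  refine ⟨hG.1.union (hs_open t c), ?_⟩
  rintro z (h | ⟨h1, h2⟩) w h3 h4
  · exact Or.inl (hG.2 z h w h3 h4)
  · exact Or.inr ⟨lt_of_le_of_lt h3 h1, lt_of_le_of_lt h4 h2⟩

theorem third {G : Set ℂ} {t' t c y : ℝ} (hG : ∀ z ∈ G, z.re < t') (htt : t' < t) (hc : 0 < c)
    (h : HS t y ⊆ G ∪ HS t c) : y ≤ c := by
  by_contra hcon
  push Not at hcon
  have h1 : (⟨(t + t') / 2, c⟩ : ℂ) ∈ HS t y := by
    refine ⟨?_, ?_⟩
    · show (t + t') / 2 < t
      linarith
    · show |c| < y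
      rw [abs_of_pos hc]; exact hcon
  rcases h h1 with h2 | ⟨h2, h3⟩
  · have h4 : (t + t') / 2 < t' := hG _ h2
    linarith
  · have h5 : |c| < c := h3
    rw [abs_of_pos hc] at h5
    exact lt_irrefl _ h5

theorem wd_mono {A B : Set ℂ} (h : A ⊆ B) (m : ℝ) : Wd A m ⊆ Wd B m := by
  rintro z ((⟨h1, h2⟩ | ⟨h1, h2⟩) | ⟨y, h1, h2⟩)
  · exact Or.inl (Or.inl ⟨h1, h h2⟩)
  · exact Or.inl (Or.inr ⟨h1, h h2⟩)
  · exact Or.inr ⟨y, h1, h2.trans h⟩

theorem hs_mono {s a b : ℝ} (h : a ≤ b) : HS s a ⊆ HS s b :=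
  fun _ hz => ⟨hz.1, lt_of_lt_of_le hz.2 h⟩

theorem co_key (hQB : S_QB) (hWD : S_WD) (hCM : S_CM) (hTI : S_TI) {G : Set ℂ} {t' t M : ℝ}
    (hG : LD G) (hb : ∀ z ∈ G, z.re < t' ∧ |z.im| < M) (htt : t' < t) {c1 c2 : ℝ} (hc1 : 0 < c1)
    (h12 : c1 ≤ c2) :
    qn (Wd (G ∪ HS t c2) t) t 0 ≤ qn (Wd (G ∪ HS t c1) t) t 0 ∧
    (1 - 6 * √((c2 - c1) / c2)) * qn (Wd (G ∪ HS t c1) t) t 0 ≤ qn (Wd (G ∪ HS t c2) t) t 0 ∧
    0 < qn (Wd (G ∪ HS t c1) t) t 0 := by
  have hc2 : 0 < c2 := lt_of_lt_of_le hc1 h12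
  have hbd : ∀ c : ℝ, ∀ z ∈ G ∪ HS t c, |z.im| < max M c := by
    rintro c z (h | h)
    · exact lt_of_lt_of_le (hb z h).2 (le_max_left _ _)
    · exact lt_of_lt_of_le h.2 (le_max_right _ _)
  obtain ⟨hD1, hs1, -, -⟩ := hWD (G ∪ HS t c1) t c1 (max M c1) (ld_un hG t c1) hc1
    subset_union_right (hbd c1)
  obtain ⟨hD2, hs2, -, -⟩ := hWD (G ∪ HS t c2) t c2 (max M c2) (ld_un hG t c2) hc2
    subset_union_right (hbd c2)
  set W1 := Wd (G ∪ HS t c1) t with hW1
  set W2 := Wd (G ∪ HS t c2) t with hW2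
  have hsub : W1 ⊆ W2 := wd_mono (union_subset_union_right G (hs_mono h12)) t
  have ht1 : (t : ℂ) ∈ W1 := hs1 _ (by simpa using hc1)
  have h01 : (0 : ℂ) ∈ W1 := hs1 _ (by simpa using hc1)
  obtain ⟨-, hpos1, hmon, -⟩ := hQB W1 t 0 hD1 ht1 h01
  refine ⟨hmon W2 hsub, ?_, hpos1⟩
  have hpos2 : 0 < qn W2 t 0 := (hQB W2 t 0 hD2 (hsub ht1) (hsub h01)).2.1
  rcases lt_or_ge (6 * √((c2 - c1) / c2)) 1 with hlt | hge
  swap
  · have : (1 - 6 * √((c2 - c1) / c2)) * qn W1 t 0 ≤ 0 :=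
      mul_nonpos_of_nonpos_of_nonneg (by linarith) hpos1.le
    linarith
  apply hCM W1 W2 t 0 _ hD1 hD2 hsub ht1 h01 (by positivity) hlt
  intro w hw2 hw1
  -- geometry
  have hlow : c1 ≤ |w.im| := by
    by_contra hcon
    push Not at hcon
    exact hw1 (hs1 w hcon)
  have hbG : ∀ z ∈ G, z.re < t' := fun z hz => (hb z hz).1
  have hup : |w.im| < c2 := by
    rcases hw2 with (⟨h1, h2⟩ | ⟨h1, h2⟩) | ⟨y, h1, h2⟩
    · rcases h2 with h2 | h2
      · exact absurd (Or.inl (Or.inl ⟨h1, Or.inl h2⟩)) hw1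
      · exact h2.2
    · rcases h2 with h2 | h2
      · exact absurd (Or.inl (Or.inr ⟨h1, Or.inl h2⟩)) hw1
      · exact h2.2
    · exact lt_of_lt_of_le h1 (third hbG htt hc2 h2)
  have hray' : ∀ s : ℝ, c2 ≤ |s| → (⟨w.re, s⟩ : ℂ) ∉ W2 := by
    intro s hs hmem
    rcases hmem with (⟨h1, h2⟩ | ⟨h1, h2⟩) | ⟨y, h1, h2⟩
    · rcases h2 with h2 | h2
      · apply hw1
        refine Or.inl (Or.inl ⟨h1, Or.inl (hG.2 _ h2 w le_rfl ?_)⟩)
        exact (hup.trans_le hs).le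
      · exact absurd h2.2 (not_lt.2 hs)
    · rcases h2 with h2 | h2
      · apply hw1
        refine Or.inl (Or.inr ⟨h1, Or.inl (hG.2 _ h2 _ le_rfl ?_)⟩)
        exact (hup.trans_le hs).le
      · exact absurd h2.2 (not_lt.2 hs)
    · have h3 := third hbG htt hc2 h2
      have h4 : |s| < y := h1
      linarith
  have hti := hTI W2 t w.re w.im c2 hD2 (hsub ht1) hw2 hc2 hup (by
    intro s hs
    have h0 : 0 ≤ s := hc2.le.trans hs
    refine ⟨hray' s ?_, hray' (-s) ?_⟩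
    · rw [abs_of_nonneg h0]; exact hs
    · rw [abs_neg, abs_of_nonneg h0]; exact hs)
  refine le_trans ?_ hti
  have hmono : √((c2 - |w.im|) / c2) ≤ √((c2 - c1) / c2) := by
    apply Real.sqrt_le_sqrt
    apply div_le_div_of_nonneg_right _ hc2.le
    linarith
  linarith

theorem t_CO : S_QB → S_WD → S_CM → S_TI → S_CO := by
  intro hQB hWD hCM hTI G t' t c' M hG hb htt ht hc' hHS c0 hc0
  set F : ℝ → ℝ := fun c : ℝ => qn (Wd (G ∪ HS t c) t) t 0 with hF
  have hkey : ∀ c1 c2 : ℝ, 0 < c1 → c1 ≤ c2 →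
      F c2 ≤ F c1 ∧ (1 - 6 * √((c2 - c1) / c2)) * F c1 ≤ F c2 ∧ 0 < F c1 := by
    intro c1 c2 h1 h2
    exact co_key hQB hWD hCM hTI hG hb htt h1 h2
  have hF0 : 0 < F c0 := (hkey c0 c0 hc0.1 le_rfl).2.2
  -- the modulus
  set e : ℝ → ℝ := fun c => 6 * √(|c - c0| / max c c0) with he
  have hec : Tendsto e (𝓝[Ioc 0 c'] c0) (𝓝 0) := by
    have h1 : ContinuousAt e c0 := by
      simp only [he]
      apply ContinuousAt.mul continuousAt_const
      apply ContinuousAt.sqrt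
      apply ContinuousAt.div
      · exact (continuous_abs.comp (continuous_id.sub continuous_const)).continuousAt
      · exact (continuous_id.max continuous_const).continuousAt
      · rw [max_self]; exact hc0.1.ne'
    have h2 : e c0 = 0 := by simp [he]
    have h3 : Tendsto e (𝓝 c0) (𝓝 0) := by
      have := h1.tendsto
      rwa [h2] at this
    exact h3.mono_left nhdsWithin_le_nhds
  have hlow : ∀ᶠ c in 𝓝[Ioc 0 c'] c0, (1 - e c) * F c0 ≤ F c := by
    filter_upwards [self_mem_nhdsWithin] with c hc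
    have henn : 0 ≤ e c := by simp only [he]; positivity
    rcases le_total c c0 with h | h
    · have h1 := (hkey c c0 hc.1 h).1
      nlinarith
    · have h1 := (hkey c0 c hc0.1 h).2.1
      have h2 : e c = 6 * √((c - c0) / c) := by
        simp only [he]
        rw [max_eq_left h, abs_of_nonneg (by linarith)]
      rw [h2]; exact h1
  have hup : ∀ᶠ c in 𝓝[Ioc 0 c'] c0, F c ≤ F c0 / (1 - e c) := by
    have hsmall : ∀ᶠ c in 𝓝[Ioc 0 c'] c0, e c < 1 := hec.eventually (Iio_mem_nhds one_pos)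
    filter_upwards [self_mem_nhdsWithin, hsmall] with c hc hc1
    have henn : 0 ≤ e c := by simp only [he]; positivity
    rw [le_div_iff₀ (by linarith)]
    rcases le_total c c0 with h | h
    · have h1 := (hkey c c0 hc.1 h).2.1
      have h2 : e c = 6 * √((c0 - c) / c0) := by
        simp only [he]
        rw [max_eq_right h, abs_sub_comm, abs_of_nonneg (by linarith)]
      rw [h2]
      linarith
    · have h1 := (hkey c0 c hc0.1 h).1
      have h2 := (hkey c c hc.1 le_rfl).2.2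
      nlinarith
  have hl1 : Tendsto (fun c => (1 - e c) * F c0) (𝓝[Ioc 0 c'] c0) (𝓝 (F c0)) := by
    have := (hec.const_sub 1).mul_const (F c0)
    simpa using this
  have hl2 : Tendsto (fun c => F c0 / (1 - e c)) (𝓝[Ioc 0 c'] c0) (𝓝 (F c0)) := by
    have h1 : Tendsto (fun c => F c0 / (1 - e c)) (𝓝[Ioc 0 c'] c0) (𝓝 (F c0 / (1 - 0))) :=
      Tendsto.div tendsto_const_nhds (hec.const_sub 1) (by norm_num)
    simpa using h1
  exact tendsto_of_tendsto_of_tendsto_of_le_of_le' hl1 hl2 hlow hup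

end Pool.Agent.Q166.HM
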