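import Pool.Agent.Q75.HM.Stm

set_option autoImplicit false

/-! # Project HM (helper75), jobs HM-TI and HM-CM, helper166 -/

namespace Pool.Agent.Q166.HM

open Complex Set Metric Filter Topology Pool.Agent.Q75.HM

open scoped Real ComplexConjugate

/-- a square root with positive real part on the slit plane -/
noncomputable def sq (z : ℂ) : ℂ := Complex.exp (Complex.log z / 2)

theorem sq_sq {z : ℂ} (hz : z ≠ 0) : sq z * sq z = z := by
  unfold sq
  rw [← Complex.exp_add]
  have : Complex.log z / 2 + Complex.log z / 2 = Complex.log z := by ring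
  rw [this, Complex.exp_log hz]

theorem sq_re {z : ℂ} (hz : z ∈ slitPlane) : 0 < (sq z).re := by
  unfold sq
  rw [Complex.exp_re]
  apply mul_pos (Real.exp_pos _)
  apply Real.cos_pos_of_mem_Ioo
  have h1 : (Complex.log z / 2).im = Complex.arg z / 2 := by
    rw [show Complex.log z / 2 = Complex.log z * ((1 / 2 : ℝ) : ℂ) by push_cast; ring,
      Complex.im_mul_ofReal, Complex.log_im]
    ring
  rw [h1]
  have h2 := Complex.neg_pi_lt_arg z
  have h3 : Complex.arg z < π := lt_of_le_of_ne (Complex.arg_le_pi z)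
    (Complex.mem_slitPlane_iff_arg.1 hz).1
  constructor <;> linarith

theorem sq_diff {z : ℂ} (hz : z ∈ slitPlane) : DifferentiableAt ℂ sq z := by
  unfold sq
  exact ((Complex.differentiableAt_log hz).div_const 2).cexp

theorem den_ne {a b : ℂ} (ha : 0 < a.re) (hb : 0 < b.re) : a + conj b ≠ 0 := by
  intro h
  have := congrArg Complex.re h
  simp at this
  linarith

theorem nq {a b : ℂ} :
    normSq (a - b) = normSq (a + conj b) - 4 * a.re * b.re := by
  simp only [Complex.normSq_apply, Complex.sub_re, Complex.sub_im, Complex.add_re,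
    Complex.add_im, Complex.conj_re, Complex.conj_im]
  ring

theorem f_lt {a b : ℂ} (ha : 0 < a.re) (hb : 0 < b.re) : ‖(a - b) / (a + conj b)‖ < 1 := by
  rw [norm_div, div_lt_one (norm_pos_iff.2 (den_ne ha hb))]
  have h1 : ‖a - b‖ ^ 2 < ‖a + conj b‖ ^ 2 := by
    rw [← Complex.normSq_eq_norm_sq, ← Complex.normSq_eq_norm_sq, nq]
    have := mul_pos ha hb
    linarith
  exact lt_of_pow_lt_pow_left₀ 2 (norm_nonneg _) h1

theorem f_ge {a b : ℂ} {c d : ℝ} (hc : 0 < c) (hd : 0 < d) (ha : 0 < a.re) (hb : 0 < b.re)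
    (ha2 : a * a = (d : ℂ)) (hb2 : (b * b).re = c) :
    1 - 4 * √(d / c) ≤ ‖(a - b) / (a + conj b)‖ := by
  have him : a.im = 0 := by
    have := congrArg Complex.im ha2
    simp at this
    have h2 : a.re * a.im = 0 := by linarith
    rcases mul_eq_zero.1 h2 with h | h
    · exact absurd h ha.ne'
    · exact h
  have hre : a.re * a.re = d := by
    have := congrArg Complex.re ha2
    simp [him] at this
    linarith
  have hbre : c ≤ b.re * b.re := by
    simp at hb2
    nlinarith [mul_self_nonneg b.im]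
  have hN : b.re * b.re ≤ normSq (a + conj b) := by
    simp only [Complex.normSq_apply, Complex.add_re, Complex.add_im, Complex.conj_re,
      Complex.conj_im]
    nlinarith [mul_self_nonneg (a.im + -b.im), mul_pos ha hb, mul_pos ha ha]
  have hNp : 0 < normSq (a + conj b) := lt_of_lt_of_le (mul_pos hb hb) hN
  have hsq : √(d / c) = a.re / √c := by
    rw [Real.sqrt_div hd.le, ← hre, Real.sqrt_mul_self ha.le]
  have hsc : 0 < √c := Real.sqrt_pos.2 hc
  have hbc : √c ≤ b.re := by
    rw [Real.sqrt_le_left hb.le]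
    nlinarith
  have h1 : 1 - 4 * √(d / c) ≤ ‖(a - b) / (a + conj b)‖ ^ 2 := by
    rw [norm_div, div_pow, ← Complex.normSq_eq_norm_sq, ← Complex.normSq_eq_norm_sq, nq, sub_div,
      div_self hNp.ne']
    have h2 : 4 * a.re * b.re / normSq (a + conj b) ≤ 4 * √(d / c) := by
      rw [hsq]
      calc 4 * a.re * b.re / normSq (a + conj b) ≤ 4 * a.re * b.re / (b.re * b.re) := by
            apply div_le_div_of_nonneg_left _ (mul_pos hb hb) hN
            positivity
        _ = 4 * (a.re / b.re) := by field_simp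
        _ ≤ 4 * (a.re / √c) := by
            apply mul_le_mul_of_nonneg_left _ (by norm_num)
            exact div_le_div_of_nonneg_left ha.le hsc hbc
    linarith
  have h3 := (f_lt ha hb).le
  have h4 := norm_nonneg ((a - b) / (a + conj b))
  nlinarith

theorem t_TI : S_QB → S_TI := by
  intro hQB W t x y c hW ht hw hc hy hray
  obtain ⟨-, -, -, hcomp, -⟩ := hQB W t ⟨x, y⟩ hW ht hw
  obtain ⟨e, he, hey⟩ : ∃ e : ℝ, (e = 1 ∨ e = -1) ∧ e * y = |y| := by
    rcases le_total 0 y with h | h
    · exact ⟨1, Or.inl rfl, by rw [abs_of_nonneg h]; ring⟩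
    · exact ⟨-1, Or.inr rfl, by rw [abs_of_nonpos h]; ring⟩
  have hee : e * e = 1 := by rcases he with h | h <;> rw [h] <;> norm_num
  set q : ℂ → ℂ := fun z => (I * (e : ℂ)) * (z - x) + c with hq
  have hqre : ∀ z : ℂ, (q z).re = c - e * z.im := by
    intro z
    simp [hq]
    ring
  have hqim : ∀ z : ℂ, (q z).im = e * (z.re - x) := by
    intro z
    simp [hq]
  have hslit : ∀ z ∈ W, q z ∈ slitPlane := by
    intro z hz
    rw [Complex.mem_slitPlane_iff]
    by_contra hcon
    push Not at hcon
    obtain ⟨h1, h2⟩ := hcon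
    rw [hqre] at h1
    rw [hqim] at h2
    have h3 : z.re = x := by
      have : e ≠ 0 := by intro h0; rw [h0] at hee; norm_num at hee
      have h4 := (mul_eq_zero.1 h2).resolve_left this
      linarith
    have h5 : c ≤ e * z.im := by linarith
    have h6 := hray (e * z.im) h5
    rcases he with h | h
    · apply h6.1
      have : (⟨x, e * z.im⟩ : ℂ) = z := by
        apply Complex.ext
        · simp [h3]
        · simp [h]
      rw [this]; exact hz
    · apply h6.2
      have : (⟨x, -(e * z.im)⟩ : ℂ) = z := by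
        apply Complex.ext
        · simp [h3]
        · simp [h]
      rw [this]; exact hz
  set b : ℂ := sq (q t) with hb
  have hbre : 0 < b.re := sq_re (hslit _ ht)
  set f : ℂ → ℂ := fun z => (sq (q z) - b) / (sq (q z) + conj b) with hf
  have hqd : ∀ z, DifferentiableAt ℂ q z := by
    intro z
    simp only [hq]
    fun_prop
  have hfd : DifferentiableOn ℂ f W := by
    intro z hz
    have h1 : DifferentiableAt ℂ (sq ∘ q) z :=
      (sq_diff (hslit z hz)).comp z (hqd z)
    have h2 : sq (q z) + conj b ≠ 0 := den_ne (sq_re (hslit z hz)) hbre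
    exact ((h1.sub_const b).div (h1.add_const _) h2).differentiableWithinAt
  have hfm : MapsTo f W (ball 0 1) := by
    intro z hz
    rw [mem_ball_zero_iff]
    exact f_lt (sq_re (hslit z hz)) hbre
  have hf0 : f t = 0 := by
    simp [hf, hb]
  have hkey := hcomp f hfd hfm hf0
  set w : ℂ := ⟨x, y⟩ with hwdef
  have hfw : ‖f w‖ = ‖w - t‖ * ‖dslope f t w‖ := by
    have := sub_smul_dslope f (t : ℂ) w
    rw [hf0, sub_zero, smul_eq_mul] at this
    rw [← this, norm_mul]
  have hd : 0 < c - |y| := by linarith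
  have hqw : q w = ((c - |y| : ℝ) : ℂ) := by
    apply Complex.ext
    · rw [hqre, Complex.ofReal_re]
      simp only [hwdef]
      rw [hey]
    · rw [hqim, Complex.ofReal_im]
      simp [hwdef]
  have hge : 1 - 4 * √((c - |y|) / c) ≤ ‖f w‖ := by
    apply f_ge hc hd (sq_re (hslit w hw)) hbre
    · rw [sq_sq]
      · exact hqw
      · exact Complex.slitPlane_ne_zero (hslit w hw)
    · rw [hb, sq_sq (Complex.slitPlane_ne_zero (hslit _ ht)), hqre]
      simp
  have hs0 : 0 ≤ √((c - |y|) / c) := Real.sqrt_nonneg _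
  calc 1 - 6 * √((c - |y|) / c) ≤ 1 - 4 * √((c - |y|) / c) := by linarith
    _ ≤ ‖f w‖ := hge
    _ = ‖w - t‖ * ‖dslope f t w‖ := hfw
    _ ≤ ‖w - t‖ * qn W t w := mul_le_mul_of_nonneg_left hkey (norm_nonneg _)

end Pool.Agent.Q166.HM
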